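import Pool.Agent.Run7.h549.Lag3

/-!
# The minimum of `a μ₂₀ + b μ₂₁` on convex bodies of volume one in `ℂ²` for `b ≤ 2a ≤ 3b`

Proof. Let `α(K)` and `α_L(K)` be the mean areas of the projections of `K` on the complex lines and
on the Lagrangian planes. Then `μ₂₀ = 4 α_L - 2 α` and `μ₂₁ = 3 α - 2 α_L`, so
`a μ₂₀ + b μ₂₁ = (3b - 2a) α + (4a - 2b) α_L`. The main step is `α(K) ≥ √(2 vol K)`
(Plancherel's theorem on complex lines and a sharp planar inequality proved by Knothe's map);
`α_L` is the mean of `α` over a circle of real isometric images of `K`.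
-/

open MeasureTheory Set
open scoped Real

namespace Pool.Agent.Results.MP_14a161_gt.BallMinimum

/-- `ℂ²` with its standard hermitian structure -/
abbrev C2 : Type := EuclideanSpace ℂ (Fin 2)

/-- convex bodies (nonempty compact convex subsets) of `ℂ²`, with the Hausdorff metric -/
abbrev Body : Type := ConvexBody C2

/-- the underlying set of a convex body -/
def pts (K : Body) : Set C2 := (K : Set C2)

/-- the volume (4-dimensional Lebesgue measure) -/
noncomputable def vol (K : Body) : ℝ := (volume (pts K)).toReal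

/-- valuations -/
def Valuation (μ : Body → ℝ) : Prop :=
  ∀ K L M N : Body, pts M = pts K ∪ pts L → pts N = pts K ∩ pts L → μ M + μ N = μ K + μ L

/-- continuity in the Hausdorff metric -/
def Cont (μ : Body → ℝ) : Prop := Continuous μ

/-- invariance under translations -/
def TranslationInvariant (μ : Body → ℝ) : Prop :=
  ∀ (K M : Body) (v : C2), pts M = (fun z => z + v) '' pts K → μ M = μ K

/-- `U(2)`-invariance -/
def UnitaryInvariant (μ : Body → ℝ) : Prop :=
  ∀ (K M : Body) (g : C2 ≃ₗᵢ[ℂ] C2), pts M = g '' pts K → μ M = μ K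

/-- homogeneity of degree two -/
def HomogeneousTwo (μ : Body → ℝ) : Prop :=
  ∀ (K M : Body) (t : ℝ), 0 ≤ t → pts M = (fun z => t • z) '' pts K → μ M = t ^ 2 * μ K

/-- the real scalar product of `ℂ² = ℝ⁴` -/
noncomputable def dot (u v : C2) : ℝ := ∑ i, ((u i).re * (v i).re + (u i).im * (v i).im)

/-- the Kähler form; `ω(u, v)` is `cos θ` up to sign for the Kähler angle `θ` of the plane of the
orthonormal vectors `u`, `v` -/
noncomputable def omega (u v : C2) : ℝ := ∑ i, ((u i).re * (v i).im - (u i).im * (v i).re)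

/-- `u`, `v` are orthonormal over `ℝ` -/
def Orthonormal2 (u v : C2) : Prop := dot u u = 1 ∧ dot v v = 1 ∧ dot u v = 0

/-- the body `K` is the set of the vectors `s u + t v` with `(s, t) ∈ P` -/
def InPlane (K : Body) (u v : C2) (P : Set (ℝ × ℝ)) : Prop :=
  pts K = (fun p : ℝ × ℝ => p.1 • u + p.2 • v) '' P

/-- the Klain function of `μ` is `a sin² θ + b cos² θ` -/
def KlainFunction (a b : ℝ) (μ : Body → ℝ) : Prop :=
  ∀ (K : Body) (u v : C2) (P : Set (ℝ × ℝ)), Orthonormal2 u v → InPlane K u v P →
    μ K = (a * (1 - omega u v ^ 2) + b * omega u v ^ 2) * (volume P).toReal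

/-- `μ` is a continuous, translation-invariant, `U(2)`-invariant valuation on the convex bodies
of `ℂ²`, homogeneous of degree `2`, with Klain function `a sin² θ + b cos² θ`. -/
structure IsHermitian (a b : ℝ) (μ : Body → ℝ) : Prop where
  valuation : Valuation μ
  continuous : Cont μ
  translation : TranslationInvariant μ
  unitary : UnitaryInvariant μ
  homogeneous : HomogeneousTwo μ
  klain : KlainFunction a b μ

/-- Euclidean balls -/
def IsBall (B : Body) : Prop := ∃ (c : C2) (r : ℝ), pts B = Metric.closedBall c r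

theorem dot_self (u : C2) : dot u u = ‖u‖ ^ 2 := by
  rw [Run7.h549.norm_sq_C2]
  unfold dot
  rw [Fin.sum_univ_two, ← Complex.normSq_eq_norm_sq, ← Complex.normSq_eq_norm_sq,
    Complex.normSq_apply, Complex.normSq_apply]

theorem inner_eq (u v : C2) : (inner ℂ u v).re = dot u v ∧ (inner ℂ u v).im = omega u v := by
  rw [Run7.h549.inner_C2]
  unfold dot omega
  rw [Fin.sum_univ_two, Fin.sum_univ_two]
  constructor
  · simp
  · simp
    ring

theorem frame_of {u v : C2} (h : Orthonormal2 u v) :
    ‖u‖ = 1 ∧ ‖v‖ = 1 ∧ (inner ℂ u v).re = 0 := by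
  obtain ⟨h1, h2, h3⟩ := h
  rw [dot_self] at h1 h2
  refine ⟨?_, ?_, by rw [(inner_eq u v).1]; exact h3⟩
  · nlinarith [norm_nonneg u]
  · nlinarith [norm_nonneg v]

open Run7.h549 in
theorem herm (a b : ℝ) :
    IsHermitian a b (fun K => a * (4 * alL K - 2 * al K) + b * (3 * al K - 2 * alL K)) where
  valuation K L M N hM hN := by
    have h1 := al_val hM hN
    have h2 := alL_val hM hN
    have e : a * (4 * alL M - 2 * al M) + b * (3 * al M - 2 * alL M)
        + (a * (4 * alL N - 2 * al N) + b * (3 * al N - 2 * alL N))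
        = (4 * a - 2 * b) * (alL M + alL N) + (3 * b - 2 * a) * (al M + al N) := by ring
    rw [e, h1, h2]
    ring
  continuous := by
    have h1 := al_cont
    have h2 := alL_cont
    unfold Cont
    fun_prop
  translation K M v hM := by
    simp only
    rw [al_trans v hM, alL_trans v hM]
  unitary K M g hM := by
    simp only
    rw [al_unitary g hM, alL_unitary g hM]
  homogeneous K M t _ hM := by
    simp only
    rw [al_dil hM, alL_dil hM]; ring
  klain K u v P huv hK := by
    obtain ⟨h1, h2, h3⟩ := frame_of huv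
    simp only
    rw [← (inner_eq u v).2, al_klain h1 h2 h3 hK, alL_klain h1 h2 h3 hK]; ring

open Run7.h549 in
/-- For `b ≤ 2a ≤ 3b` the minimum of `a μ₂₀ + b μ₂₁` over the convex bodies of volume one
is `√2 (2a + b)`, and it is attained by the balls. -/
theorem result : ∃ μ20 μ21 : Body → ℝ,
    IsHermitian 1 0 μ20 ∧ IsHermitian 0 1 μ21 ∧
    ∀ a b : ℝ, b ≤ 2 * a → 2 * a ≤ 3 * b →
      IsLeast {t : ℝ | ∃ K : Body, vol K = 1 ∧ t = a * μ20 K + b * μ21 K} (√2 * (2 * a + b)) ∧
      ∀ B : Body, IsBall B → vol B = 1 → a * μ20 B + b * μ21 B = √2 * (2 * a + b) := by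
  refine ⟨fun K => 4 * alL K - 2 * al K, fun K => 3 * al K - 2 * alL K, ?_, ?_, ?_⟩
  · have h := herm 1 0
    simpa using h
  · have h := herm 0 1
    simpa using h
  · intro a b h1 h2
    have hball : ∀ (B : ConvexBody C2) (c : C2) (r : ℝ), (B : Set C2) = Metric.closedBall c r →
        (volume (B : Set C2)).toReal = 1 →
        a * (4 * alL B - 2 * al B) + b * (3 * al B - 2 * alL B) = √2 * (2 * a + b) := by
      intro B c r hB hv
      have hr : 0 ≤ r := by
        by_contra hneg
        push Not at hneg
        rw [Metric.closedBall_eq_empty.2 hneg] at hB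
        have := B.nonempty
        rw [hB] at this
        exact this.ne_empty rfl
      rw [al_ball hr hB, alL_ball hr hB]
      have h3 := vol_ball (c := c) hr
      rw [← hB, hv] at h3
      have h4 : (π * r ^ 2) ^ 2 = 2 := by
        nlinarith
      have h5 : π * r ^ 2 = √2 := by
        rw [← h4, Real.sqrt_sq (by positivity)]
      rw [h5]
      ring
    refine ⟨⟨?_, ?_⟩, fun B ⟨c, r, hB⟩ hv => hball B c r hB hv⟩
    · -- the ball of volume one
      set r : ℝ := √(√2 / π) with hr
      have hr0 : 0 ≤ r := Real.sqrt_nonneg _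
      have hr2 : r ^ 2 = √2 / π := Real.sq_sqrt (by positivity)
      let B : ConvexBody C2 := ⟨Metric.closedBall 0 r, convex_closedBall 0 r, isCompact_closedBall 0 r,
        ⟨0, Metric.mem_closedBall_self hr0⟩⟩
      have hB : (B : Set C2) = Metric.closedBall 0 r := rfl
      have hv : (volume (B : Set C2)).toReal = 1 := by
        have h3 := vol_ball (c := (0 : C2)) hr0
        have h4 : π ^ 2 * r ^ 4 / 2 = 1 := by
          have e : r ^ 4 = (r ^ 2) ^ 2 := by ring
          rw [e, hr2, div_pow, Real.sq_sqrt (by norm_num)]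
          have := Real.pi_pos
          field_simp
        rw [h4] at h3
        rw [hB]
        exact h3
      exact ⟨B, hv, (hball B 0 r hB hv).symm⟩
    · rintro t ⟨K, hK, rfl⟩
      have hK' : (volume (K : Set C2)).toReal = 1 := hK
      have h3 := al_ge K
      have h4 := alL_ge K
      rw [hK', mul_one] at h3 h4
      have h5 : 0 ≤ 3 * b - 2 * a := by linarith
      have h6 : 0 ≤ 4 * a - 2 * b := by linarith
      have h7 := mul_le_mul_of_nonneg_left h3 h5
      have h8 := mul_le_mul_of_nonneg_left h4 h6
      have e2 : a * (4 * alL K - 2 * al K) + b * (3 * al K - 2 * alL K)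
          = (3 * b - 2 * a) * al K + (4 * a - 2 * b) * alL K := by ring
      rw [e2]
      calc √2 * (2 * a + b) = (3 * b - 2 * a) * √2 + (4 * a - 2 * b) * √2 := by ring
        _ ≤ (3 * b - 2 * a) * al K + (4 * a - 2 * b) * alL K := by linarith

end Pool.Agent.Results.MP_14a161_gt.BallMinimum
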