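import Pool.Agent.Run7.h549.High3

/-!
# The balls are not minimisers of `a μ₂₀ + b μ₂₁` when `a / b` is outside `[1/2, 5/2]`

Proof. Let `α(K)` and `α_L(K)` be the mean areas of the projections of `K` on the complex lines and
on the Lagrangian planes. Then `a μ₂₀ + b μ₂₁ = (3b - 2a) α + (4a - 2b) α_L`.
For `2a < b` the body has support function `1 + δ Re (x₀^k)` on the unit sphere, with `k` large and
`δ` small: `α = π (1 - δ² (k-1)/2)`, `α_L = π (1 - δ² (k-1)/(2(k+1)))` and
`2 vol ≥ π² (1 - δ² (k-1)(k+3)/(k+1)) + O(δ³)`.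
For `2a > 5b` the body has support function `max (√e, |x₀|)`: `α ≥ π (1+e²)/2`,
`α_L ≤ π ((1+e²)/2 - (1-e)²/4)` and `2 vol ≥ π² (1 - 2x + 4x²/3 - x³/3)` with `x = 1 - e`.
-/

open MeasureTheory Set
open scoped Real

namespace Pool.Agent.Results.MP_14a161_gt.BallNotMinimal

/-- `ℂ²` with its standard hermitian structure -/
abbrev C2 : Type := EuclideanSpace ℂ (Fin 2)

/-- convex bodies (nonempty compact convex subsets) of `ℂ²`, with the Hausdorff metric -/
abbrev Body : Type := ConvexBody C2

/-- the underlying set of a convex body -/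
def pts (K : Body) : Set C2 := (K : Set C2)

/-- the volume (4-dimensional Lebesgue measure) -/
noncomputable def vol (K : Body) : ℝ := (volume (pts K)).toReal

/-- valuations -/
def Valuation (μ : Body → ℝ) : Prop :=
  ∀ K L M N : Body, pts M = pts K ∪ pts L → pts N = pts K ∩ pts L → μ M + μ N = μ K + μ L

/-- continuity in the Hausdorff metric -/
def Cont (μ : Body → ℝ) : Prop := Continuous μ

/-- invariance under translations -/
def TranslationInvariant (μ : Body → ℝ) : Prop :=
  ∀ (K M : Body) (v : C2), pts M = (fun z => z + v) '' pts K → μ M = μ K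

/-- `U(2)`-invariance -/
def UnitaryInvariant (μ : Body → ℝ) : Prop :=
  ∀ (K M : Body) (g : C2 ≃ₗᵢ[ℂ] C2), pts M = g '' pts K → μ M = μ K

/-- homogeneity of degree two -/
def HomogeneousTwo (μ : Body → ℝ) : Prop :=
  ∀ (K M : Body) (t : ℝ), 0 ≤ t → pts M = (fun z => t • z) '' pts K → μ M = t ^ 2 * μ K

/-- the real scalar product of `ℂ² = ℝ⁴` -/
noncomputable def dot (u v : C2) : ℝ := ∑ i, ((u i).re * (v i).re + (u i).im * (v i).im)

/-- the Kähler form; `ω(u, v)` is `cos θ` up to sign for the Kähler angle `θ` of the plane of the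
orthonormal vectors `u`, `v` -/
noncomputable def omega (u v : C2) : ℝ := ∑ i, ((u i).re * (v i).im - (u i).im * (v i).re)

/-- `u`, `v` are orthonormal over `ℝ` -/
def Orthonormal2 (u v : C2) : Prop := dot u u = 1 ∧ dot v v = 1 ∧ dot u v = 0

/-- the body `K` is the set of the vectors `s u + t v` with `(s, t) ∈ P` -/
def InPlane (K : Body) (u v : C2) (P : Set (ℝ × ℝ)) : Prop :=
  pts K = (fun p : ℝ × ℝ => p.1 • u + p.2 • v) '' P

/-- the Klain function of `μ` is `a sin² θ + b cos² θ` -/
def KlainFunction (a b : ℝ) (μ : Body → ℝ) : Prop :=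
  ∀ (K : Body) (u v : C2) (P : Set (ℝ × ℝ)), Orthonormal2 u v → InPlane K u v P →
    μ K = (a * (1 - omega u v ^ 2) + b * omega u v ^ 2) * (volume P).toReal

/-- `μ` is a continuous, translation-invariant, `U(2)`-invariant valuation on the convex bodies
of `ℂ²`, homogeneous of degree `2`, with Klain function `a sin² θ + b cos² θ`. -/
structure IsHermitian (a b : ℝ) (μ : Body → ℝ) : Prop where
  valuation : Valuation μ
  continuous : Cont μ
  translation : TranslationInvariant μ
  unitary : UnitaryInvariant μ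
  homogeneous : HomogeneousTwo μ
  klain : KlainFunction a b μ

/-- Euclidean balls -/
def IsBall (B : Body) : Prop := ∃ (c : C2) (r : ℝ), pts B = Metric.closedBall c r

theorem dot_self (u : C2) : dot u u = ‖u‖ ^ 2 := by
  rw [Run7.h549.norm_sq_C2]
  unfold dot
  rw [Fin.sum_univ_two, ← Complex.normSq_eq_norm_sq, ← Complex.normSq_eq_norm_sq,
    Complex.normSq_apply, Complex.normSq_apply]

theorem inner_eq (u v : C2) : (inner ℂ u v).re = dot u v ∧ (inner ℂ u v).im = omega u v := by
  rw [Run7.h549.inner_C2]
  unfold dot omega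
  rw [Fin.sum_univ_two, Fin.sum_univ_two]
  constructor
  · simp
  · simp
    ring

theorem frame_of {u v : C2} (h : Orthonormal2 u v) :
    ‖u‖ = 1 ∧ ‖v‖ = 1 ∧ (inner ℂ u v).re = 0 := by
  obtain ⟨h1, h2, h3⟩ := h
  rw [dot_self] at h1 h2
  refine ⟨?_, ?_, by rw [(inner_eq u v).1]; exact h3⟩
  · nlinarith [norm_nonneg u]
  · nlinarith [norm_nonneg v]

open Run7.h549 in
theorem herm (a b : ℝ) :
    IsHermitian a b (fun K => a * (4 * alL K - 2 * al K) + b * (3 * al K - 2 * alL K)) where
  valuation K L M N hM hN := by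
    have h1 := al_val hM hN
    have h2 := alL_val hM hN
    have e : a * (4 * alL M - 2 * al M) + b * (3 * al M - 2 * alL M)
        + (a * (4 * alL N - 2 * al N) + b * (3 * al N - 2 * alL N))
        = (4 * a - 2 * b) * (alL M + alL N) + (3 * b - 2 * a) * (al M + al N) := by ring
    rw [e, h1, h2]
    ring
  continuous := by
    have h1 := al_cont
    have h2 := alL_cont
    unfold Cont
    fun_prop
  translation K M v hM := by
    simp only
    rw [al_trans v hM, alL_trans v hM]
  unitary K M g hM := by
    simp only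
    rw [al_unitary g hM, alL_unitary g hM]
  homogeneous K M t _ hM := by
    simp only
    rw [al_dil hM, alL_dil hM]; ring
  klain K u v P huv hK := by
    obtain ⟨h1, h2, h3⟩ := frame_of huv
    simp only
    rw [← (inner_eq u v).2, al_klain h1 h2 h3 hK, alL_klain h1 h2 h3 hK]; ring

open Run7.h549 in
/-- For `a, b ≥ 0` with `2a < b` or `2a > 5b` some convex body of volume one has a smaller value of
`a μ₂₀ + b μ₂₁` than the balls of volume one. -/
theorem result : ∃ μ20 μ21 : Body → ℝ,
    IsHermitian 1 0 μ20 ∧ IsHermitian 0 1 μ21 ∧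
    ∀ a b : ℝ, 0 ≤ a → 0 ≤ b → (2 * a < b ∨ 5 * b < 2 * a) →
      ∃ K : Body, vol K = 1 ∧ ∀ B : Body, IsBall B → vol B = 1 →
        a * μ20 K + b * μ21 K < a * μ20 B + b * μ21 B := by
  refine ⟨fun K => 4 * alL K - 2 * al K, fun K => 3 * al K - 2 * alL K, ?_, ?_, ?_⟩
  · have h := herm 1 0
    simpa using h
  · have h := herm 0 1
    simpa using h
  · intro a b ha hb hab
    have hball : ∀ (B : ConvexBody C2) (c : C2) (r : ℝ), (B : Set C2) = Metric.closedBall c r →
        (volume (B : Set C2)).toReal = 1 →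
        a * (4 * alL B - 2 * al B) + b * (3 * al B - 2 * alL B) = √2 * (2 * a + b) := by
      intro B c r hB hv
      have hr : 0 ≤ r := by
        by_contra hneg
        push Not at hneg
        rw [Metric.closedBall_eq_empty.2 hneg] at hB
        have := B.nonempty
        rw [hB] at this
        exact this.ne_empty rfl
      rw [al_ball hr hB, alL_ball hr hB]
      have h3 := vol_ball (c := c) hr
      rw [← hB, hv] at h3
      have h4 : (π * r ^ 2) ^ 2 = 2 := by
        nlinarith
      have h5 : π * r ^ 2 = √2 := by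
        rw [← h4, Real.sqrt_sq (by positivity)]
      rw [h5]
      ring
    have hex : ∃ K : ConvexBody C2, (volume (K : Set C2)).toReal = 1 ∧
        a * (4 * alL K - 2 * al K) + b * (3 * al K - 2 * alL K) < √2 * (2 * a + b) := by
      rcases hab with h | h
      · exact low h (by linarith)
      · exact high hb h
    obtain ⟨K, hK, hlt⟩ := hex
    refine ⟨K, hK, ?_⟩
    rintro B ⟨c, r, hB⟩ hv
    rw [hball B c r hB hv]
    exact hlt

end Pool.Agent.Results.MP_14a161_gt.BallNotMinimal
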